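import Pool.Agent.Run7.h13.PQ.MODEL2
import Pool.Agent.Run7.h871.PO.PRIMES
import Pool.Agent.Run7.h215.PO.WSMALL

set_option autoImplicit false

/-! Piece PRIMES2 of project PQ: from the von Mangoldt function to primes. -/

namespace Pool.Agent.Run7.h13.PQ

open Finset hiding box
open Pool.Agent.H373R2.T7
open Pool.Agent.H807R2.Dav
open Pool.Agent.Run7.h385.PO
open Pool.Agent.Run7.h385.PQ
open Pool.Agent.Run7.h871.PO

theorem ev_abs2 {d : ℕ} (W : ℕ) (t : Fin d → ℤ) (n : ℕ) (T N : ℝ) (hT : 0 ≤ T) (hN : 1 ≤ N)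
    (hn : (n : ℝ) ≤ N) (h : ∀ j, |(t j : ℝ)| ≤ T) :
    |((ev W t n : ℤ) : ℝ)| ≤ W * (d * (T * N ^ (d - 1))) := by
  unfold ev
  push_cast
  rw [abs_mul, Nat.abs_cast]
  apply mul_le_mul_of_nonneg_left _ (Nat.cast_nonneg _)
  refine (abs_sum_le_sum_abs _ _).trans ?_
  have h1 : ∀ j : Fin d, |(t j : ℝ) * (n : ℝ) ^ (j : ℕ)| ≤ T * N ^ (d - 1) := by
    intro j
    rw [abs_mul, abs_of_nonneg (by positivity : (0 : ℝ) ≤ (n : ℝ) ^ (j : ℕ))]
    apply mul_le_mul (h j) _ (by positivity) hT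
    exact (pow_le_pow_left₀ (Nat.cast_nonneg _) hn _).trans (pow_le_pow_right₀ hN (by omega))
  refine (sum_le_sum fun j _ => h1 j).trans ?_
  rw [sum_const, card_univ, Fintype.card_fin, nsmul_eq_mul]

theorem val_le2 {d : ℕ} (hd : 1 ≤ d) (C : ℕ) (L X M : ℝ) (hL1 : 1 ≤ L) (hLd1 : (2 : ℝ) * d + 1 ≤ L)
    (hX0 : 0 < X) (hM : 1 ≤ M)
    (W : ℕ) (hW : (W : ℝ) ≤ L) (n : ℕ) (hn : (n : ℝ) ≤ M * L ^ C) (u : ℤ)
    (hu : |(u : ℝ)| ≤ X * M ^ (d - 1) * L ^ C)
    (t : Fin d → ℤ) (h1 : ∀ j, |(t j : ℝ)| ≤ X) :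
    |((u + ev W t n : ℤ) : ℝ)| ≤ X * M ^ (d - 1) * L ^ (C * d + C + 3) := by
  have hLC : 1 ≤ L ^ C := one_le_pow₀ hL1
  have h2 := ev_abs2 W t n X (M * L ^ C) hX0.le (by nlinarith) hn h1
  have h3 : (W : ℝ) * (d * (X * (M * L ^ C) ^ (d - 1))) ≤ L * (d * (X * (M * L ^ C) ^ (d - 1))) :=
    mul_le_mul_of_nonneg_right hW (by positivity)
  have h5 : |((u + ev W t n : ℤ) : ℝ)| ≤ X * M ^ (d - 1) * L ^ C + L * (d * (X * (M * L ^ C) ^ (d - 1))) := by
    push_cast
    refine (abs_add_le _ _).trans ?_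
    linarith
  refine h5.trans ?_
  rw [mul_pow, ← pow_mul]
  have g0 : C * (d - 1) + 1 ≤ C * d + C + 2 := by
    have : C * (d - 1) ≤ C * d := Nat.mul_le_mul_left _ (by omega)
    omega
  have g1 : L ^ C ≤ L ^ (C * d + C + 2) := pow_le_pow_right₀ hL1 (by omega)
  have g2 : L ^ (C * (d - 1) + 1) ≤ L ^ (C * d + C + 2) := pow_le_pow_right₀ hL1 g0
  have g3 : L ^ (C * d + C + 3) = L * L ^ (C * d + C + 2) := by
    rw [show C * d + C + 3 = 1 + (C * d + C + 2) by ring, pow_add, pow_one]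
  have g4 : L * (d * (X * (M ^ (d - 1) * L ^ (C * (d - 1))))) = X * M ^ (d - 1) * (d * L ^ (C * (d - 1) + 1)) := by
    rw [pow_succ]; ring
  rw [g3, g4, ← mul_add]
  have hXM : 0 ≤ X * M ^ (d - 1) := by positivity
  apply mul_le_mul_of_nonneg_left _ hXM
  have g5 : (d : ℝ) * L ^ (C * (d - 1) + 1) ≤ d * L ^ (C * d + C + 2) := by gcongr
  have g6 : ((d : ℝ) + 1) * L ^ (C * d + C + 2) ≤ L * L ^ (C * d + C + 2) := by
    apply mul_le_mul_of_nonneg_right _ (by positivity)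
    have : (0 : ℝ) ≤ d := Nat.cast_nonneg _
    linarith
  linarith

theorem t_PRIMES2' (hWS : S_WSMALL) (hD : S_DIFF2) (hM : S_MODEL2) (hDist : S_DIST) : S_PRIMES2 := by
  classical
  intro d k C hd hk
  obtain ⟨B, hB⟩ := hD d k C 1 hd hk
  refine ⟨max B (C * d), fun ε hε => ?_⟩
  have hε1 : 0 < min ε 1 / 8 := by positivity
  set ε1 : ℝ := min ε 1 / 8 with hε1d
  have hε18 : ε1 ≤ 1 / 8 := by
    rw [hε1d]
    have := min_le_right ε 1
    linarith
  have hε5 : 5 * ε1 ≤ ε := by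
    rw [hε1d]
    have := min_le_left ε 1
    linarith
  obtain ⟨η, hη0, hη12, hηu, hηl⟩ := near_one k ε1 hε1
  obtain ⟨X1, hX1⟩ := hB (B + 2)
  obtain ⟨X2, hX2⟩ := hM d k C (B + 2) hd ε1 hε1
  obtain ⟨X3, hX3⟩ := hWS.2
  set C1 : ℕ := C * d + C + 3 with hC1
  set D : ℕ := k + C + 1 with hDd
  obtain ⟨x1, hx1⟩ := ev_L' (max (max ((2 : ℝ) * d + 1) 2) (max (16 * k * 2 ^ k / ε1) (1 / ε1)))
  obtain ⟨x2, hx2⟩ := ev_log' (C1 + 1 + D) 36
  obtain ⟨x3, hx3⟩ := ev_loglog ((D : ℝ) + C1) η hη0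
  refine ⟨max (max (max X1 X2) (max X3 x1)) (max (max x2 x3) 3),
    fun X hX m hm n hn hnC u hu hcop Y hY => ?_⟩
  simp only [max_le_iff] at hX
  obtain ⟨⟨⟨hXX1, hXX2⟩, hXX3, hXx1⟩, ⟨hXx2, hXx3⟩, hX3n⟩ := hX
  have hX3r : (3 : ℝ) ≤ X := by exact_mod_cast hX3n
  have hX0 : (0 : ℝ) < X := by linarith
  have hLbig := hx1 X hXx1
  obtain ⟨hW2, hW1, -⟩ := hX3 X hXX3
  set L : ℝ := Real.log X with hLd
  have hLd1 : (2 : ℝ) * d + 1 ≤ L := le_trans (le_trans (le_max_left _ _) (le_max_left _ _)) hLbig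
  have hL2 : 2 ≤ L := le_trans (le_trans (le_max_right _ _) (le_max_left _ _)) hLbig
  have hLk : 16 * k * 2 ^ k / ε1 ≤ L := le_trans (le_trans (le_max_left _ _) (le_max_right _ _)) hLbig
  have hLe : 1 / ε1 ≤ L := le_trans (le_trans (le_max_right _ _) (le_max_right _ _)) hLbig
  have hL1 : 1 ≤ L := by linarith
  have hL0 : 0 < L := by linarith
  have hW1r : (1 : ℝ) ≤ WW X := by exact_mod_cast hW1
  have hWL : (WW X : ℝ) ≤ L := by nlinarith
  -- the size of the values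
  set M : ℝ := (m : ℝ) + 1 with hMd
  have hM1 : 1 ≤ M := by
    have : (0 : ℝ) ≤ m := Nat.cast_nonneg _
    linarith
  set Q : ℝ := M ^ (d - 1) with hQd
  have hQ1 : 1 ≤ Q := one_le_pow₀ hM1
  have hQ0 : 0 < Q := by linarith
  have hQ5 : M ^ (5 * (d - 1)) = Q ^ 5 := by
    rw [hQd, mul_comm 5 (d - 1), pow_mul]
  rw [hQ5] at hm
  have hmB : Q ^ 5 * L ^ B ≤ X := by
    refine le_trans ?_ hm
    apply mul_le_mul_of_nonneg_left _ (by positivity)
    exact pow_le_pow_right₀ hL1 (le_max_left _ _)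
  have hQQ5 : Q ≤ Q ^ 5 := le_self_pow₀ hQ1 (by norm_num)
  have hmC : Q * L ^ (C * d) ≤ X := by
    refine le_trans ?_ hm
    apply mul_le_mul hQQ5 _ (by positivity) (by positivity)
    exact pow_le_pow_right₀ hL1 (le_max_right _ _)
  set XN : ℕ := X * (m + 1) ^ (d - 1) with hXN
  have hXNr : (XN : ℝ) = X * Q := by
    rw [hXN, hQd, hMd]
    push_cast
    ring
  have hXXN : X ≤ XN := by
    rw [hXN]
    exact Nat.le_mul_of_pos_right _ (by positivity)
  have hXXNr : (X : ℝ) ≤ XN := by exact_mod_cast hXXN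
  have hXN0 : (0 : ℝ) < XN := by linarith
  have hsq := hx2 XN (hXx2.trans hXXN)
  have hll := hx3 XN (hXx3.trans hXXN)
  set ℓ : ℝ := Real.log XN with hℓd
  have hLℓ : L ≤ ℓ := Real.log_le_log hX0 hXXNr
  have hℓ1 : 1 ≤ ℓ := hL1.trans hLℓ
  have hℓ0 : 0 < ℓ := by linarith
  have hlg : lg X d m = ℓ := by
    unfold lg
    rw [hℓd, hXNr]
  -- z
  set z : ℕ := ⌈L ^ (B + 1)⌉₊ with hzd
  have hzge : L ^ (B + 1) ≤ z := Nat.le_ceil _
  have hLB1 : 1 ≤ L ^ (B + 1) := one_le_pow₀ hL1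
  have hz1 : L ^ B ≤ z := le_trans (pow_le_pow_right₀ hL1 (Nat.le_succ B)) hzge
  have hz2 : (z : ℝ) ≤ L ^ (B + 2) := by
    have h1 := (Nat.ceil_lt_add_one (show 0 ≤ L ^ (B + 1) by positivity)).le
    rw [← hzd] at h1
    have h2 : L ^ (B + 2) = L * L ^ (B + 1) := by rw [pow_succ]; ring
    rw [h2]
    nlinarith
  have hz11 : 1 ≤ z := by
    have h1 : (1 : ℝ) ≤ z := hLB1.trans hzge
    exact_mod_cast h1
  have hwz : ww X ≤ z := by
    have h1 : (ww X : ℝ) ≤ z := by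
      unfold ww
      have h2 : 0 ≤ Real.log (Real.log X) / 4 := by
        have := Real.log_nonneg hL1
        positivity
      refine (Nat.floor_le h2).trans ?_
      have h3 : Real.log (Real.log X) ≤ L := (Real.log_le_self (by positivity))
      have h4 : L ≤ L ^ (B + 1) := by
        calc L = L ^ 1 := (pow_one L).symm
          _ ≤ L ^ (B + 1) := pow_le_pow_right₀ hL1 (by omega)
      have h5 : 0 ≤ Real.log (Real.log X) := Real.log_nonneg hL1
      linarith
    exact_mod_cast h1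
  have hLC1 : 1 ≤ L ^ C := one_le_pow₀ hL1
  have hdiffn : ∀ i j, |(n i : ℝ) - n j| ≤ L ^ C := by
    intro i j
    have h1 : (m : ℝ) < n i := by exact_mod_cast (hnC i).1
    have h2 : (m : ℝ) < n j := by exact_mod_cast (hnC j).1
    have h3 := (hnC i).2
    have h4 := (hnC j).2
    rw [abs_le]
    constructor <;> linarith
  have hnM : ∀ i, (n i : ℝ) ≤ M * L ^ C := by
    intro i
    have h3 := (hnC i).2
    have h0 : (0 : ℝ) ≤ m := Nat.cast_nonneg _
    rw [hMd]
    nlinarith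
  have hMn : ∀ i, M ≤ n i := by
    intro i
    rw [hMd]
    exact_mod_cast (hnC i).1
  have hDIFF := hX1 X hXX1 z hz1 hz2 m (by rw [← hMd, hQ5]; exact hmB) n hn hnC (WW X) hW1 hWL u hu Y hY
  have hMODEL := hX2 X hXX2 z hz11 hwz hz2 n hn hdiffn u hcop Y (fun j => (hY j).1)
  set P : ℝ := ∏ j, (Y j : ℝ) with hPd
  have hP0 : 0 ≤ P := prod_nonneg fun j _ => Nat.cast_nonneg _
  set V : ℝ := (Vz (ww X))⁻¹ with hVd
  have hV1 : 1 ≤ V := by
    rw [hVd]
    exact (one_le_inv₀ (Vz_pos _)).2 (Vz_le_one _)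
  have hVk : 1 ≤ V ^ k := one_le_pow₀ hV1
  have hPV : P ≤ P * V ^ k := le_mul_of_one_le_right hP0 hVk
  -- K, b and the bad values
  set K : ℕ := ⌈(XN : ℝ) * ℓ ^ C1⌉₊ with hKd
  set b : ℕ := ⌊(XN : ℝ) / ℓ ^ D⌋₊ with hbd
  have hXL1 : (XN : ℝ) ≤ XN * ℓ ^ C1 := le_mul_of_one_le_right hXN0.le (one_le_pow₀ hℓ1)
  have hKle : (XN : ℝ) * ℓ ^ C1 ≤ K := Nat.le_ceil _
  have hXK : (XN : ℝ) ≤ K := hXL1.trans hKle
  have hK1 : 1 ≤ K := by
    have h1 : (1 : ℝ) ≤ K := by linarith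
    exact_mod_cast h1
  have hK2 : (K : ℝ) ≤ 2 * XN * ℓ ^ C1 := by
    have h1 := (Nat.ceil_lt_add_one (show (0 : ℝ) ≤ (XN : ℝ) * ℓ ^ C1 by positivity)).le
    rw [← hKd] at h1
    linarith
  have hsX : √(XN : ℝ) ≤ XN := by
    rw [Real.sqrt_le_left (by positivity)]; nlinarith
  have hKsq : (K : ℝ) ≤ (XN : ℝ) ^ 2 := by
    have h1 : 36 * ℓ ^ C1 ≤ XN := by
      refine le_trans ?_ (hsq.trans hsX)
      exact mul_le_mul_of_nonneg_left (pow_le_pow_right₀ hℓ1 (by omega)) (by norm_num)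
    have h2 : 2 * (XN : ℝ) * ℓ ^ C1 = XN * (2 * ℓ ^ C1) := by ring
    rw [h2] at hK2
    refine hK2.trans ?_
    rw [sq]
    apply mul_le_mul_of_nonneg_left _ hXN0.le
    have h3 : 0 ≤ ℓ ^ C1 := by positivity
    linarith
  have hK0 : (0 : ℝ) < K := by linarith
  have hlK : Real.log K ≤ 2 * ℓ := by
    have h1 := Real.log_le_log hK0 hKsq
    rw [Real.log_pow] at h1
    push_cast at h1
    exact h1
  have hbcard := bad_small C1 D XN ℓ K b hℓ1 (by linarith) rfl hK2 hKsq hK1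
    (Nat.floor_le (by positivity)) hsq
  -- values
  have hval : ∀ t ∈ box Y, ∀ i, |((u i + ev (WW X) t (n i) : ℤ) : ℝ)| ≤ XN * ℓ ^ C1 := by
    intro t ht i
    refine (val_le2 (by omega) C L X M hL1 hLd1 hX0 hM1 (WW X) hWL (n i) (hnM i) (u i) (hu i) t fun j => ?_).trans ?_
    · unfold Pool.Agent.Run7.h385.PO.box at ht
      rw [Fintype.mem_piFinset] at ht
      have h1 := mem_Ico.1 (ht j)
      have h2 : (0 : ℝ) ≤ t j := by exact_mod_cast h1.1
      have h3 : (t j : ℝ) ≤ Y j := by exact_mod_cast h1.2.le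
      have h4 := (hY j).2
      rw [abs_of_nonneg h2]
      linarith
    · rw [hXNr]
      apply mul_le_mul_of_nonneg_left _ (by positivity)
      exact pow_le_pow_left₀ hL0.le hLℓ _
  have hvalN : ∀ t ∈ box Y, ∀ i, ((u i + ev (WW X) t (n i)).natAbs : ℝ) ≤ XN * ℓ ^ C1 := by
    intro t ht i
    have := hval t ht i
    rwa [← Int.cast_abs, ← Nat.cast_natAbs] at this
  have hvalK : ∀ t ∈ box Y, ∀ i, (u i + ev (WW X) t (n i)).natAbs ≤ K := by
    intro t ht i
    have := (hvalN t ht i).trans hKle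
    exact_mod_cast this
  set bad : Finset (Fin d → ℤ) := (box Y).filter (fun t => ∃ i, u i + ev (WW X) t (n i) ∈ Bad K b)
    with hbadd
  have hbad1 : ∀ i, (((box Y).filter (fun t => u i + ev (WW X) t (n i) ∈ Bad K b)).card : ℝ) ≤
      8 * P / ℓ ^ (k + 1) := by
    intro i
    have hni1 : 1 ≤ n i := by
      have := (hnC i).1
      omega
    have hY0 : (n i) ^ (d - 1) ≤ Y ⟨0, by omega⟩ := by
      have h1 : ((n i : ℝ)) ^ (d - 1) ≤ Y ⟨0, by omega⟩ := by
        refine le_trans ?_ (hY ⟨0, by omega⟩).1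
        rw [le_div_iff₀ (by positivity)]
        have h2 : ((n i : ℝ)) ^ (d - 1) ≤ Q * L ^ (C * (d - 1)) := by
          refine (pow_le_pow_left₀ (Nat.cast_nonneg _) (hnM i) _).trans (le_of_eq ?_)
          rw [mul_pow, ← pow_mul]
        calc ((n i : ℝ)) ^ (d - 1) * L ^ C ≤ Q * L ^ (C * (d - 1)) * L ^ C :=
              mul_le_mul_of_nonneg_right h2 (by positivity)
          _ = Q * L ^ (C * d) := by
              rw [mul_assoc, ← pow_add]
              congr 2
              have : C * (d - 1) + C = C * ((d - 1) + 1) := by ring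
              rw [this]
              congr 1
              omega
          _ ≤ X := hmC
      exact_mod_cast h1
    have hvK : ∀ t ∈ box Y, |u i + ev (WW X) t (n i)| ≤ (K : ℤ) := by
      intro t ht
      have := hvalK t ht i
      rw [Int.abs_eq_natAbs]
      exact_mod_cast this
    have h1 := hDist d hd Y (WW X) (n i) hW1 hni1 hY0 (u i) K (fun v => if v ∈ Bad K b then 1 else 0)
      (fun v => by positivity) hvK
    have e1 : ∑ t ∈ box Y, (fun v => if v ∈ Bad K b then (1 : ℝ) else 0) (u i + ev (WW X) t (n i)) =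
        (((box Y).filter (fun t => u i + ev (WW X) t (n i) ∈ Bad K b)).card : ℝ) := by
      rw [card_filter]
      push_cast
      rfl
    have e2 : ∑ v ∈ Icc (-(K : ℤ)) K, (fun v => if v ∈ Bad K b then (1 : ℝ) else 0) v = ((Bad K b).card : ℝ) := by
      have h3 : Bad K b = (Icc (-(K : ℤ)) K).filter (fun v => v ∈ Bad K b) := by
        ext v
        rw [mem_filter]
        refine ⟨fun h => ⟨?_, h⟩, fun h => h.2⟩
        unfold Bad at h
        exact (mem_filter.1 h).1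
      conv_rhs => rw [h3]
      rw [card_filter]
      push_cast
      rfl
    rw [e1, e2] at h1
    have h2 := (hY ⟨d - 1, by omega⟩).1
    have h3 : 0 < (X : ℝ) / L ^ C := by positivity
    have h5 : Q ≤ (n i : ℝ) ^ (d - 1) := pow_le_pow_left₀ (by linarith) (hMn i) _
    have h4 : (((box Y).filter (fun t => u i + ev (WW X) t (n i) ∈ Bad K b)).card : ℝ) * (X / L ^ C * Q) ≤
        2 * P * (4 * XN / ℓ ^ D) := by
      refine (mul_le_mul_of_nonneg_left (mul_le_mul h2 h5 hQ0.le (Nat.cast_nonneg _)) (Nat.cast_nonneg _)).trans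
        (h1.trans ?_)
      exact mul_le_mul_of_nonneg_left hbcard (by positivity)
    rw [← le_div_iff₀ (by positivity)] at h4
    refine h4.trans ?_
    rw [hXNr]
    have e3 : 2 * P * (4 * (X * Q) / ℓ ^ D) / (X / L ^ C * Q) = 8 * P * L ^ C / ℓ ^ D := by
      field_simp
      ring
    rw [e3, hDd, show k + C + 1 = (k + 1) + C by ring, pow_add, div_le_div_iff₀ (by positivity) (by positivity)]
    have e4 : L ^ C ≤ ℓ ^ C := pow_le_pow_left₀ hL0.le hLℓ _
    calc 8 * P * L ^ C * ℓ ^ (k + 1) ≤ 8 * P * ℓ ^ C * ℓ ^ (k + 1) := by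
          apply mul_le_mul_of_nonneg_right _ (by positivity)
          exact mul_le_mul_of_nonneg_left e4 (by positivity)
      _ = 8 * P * (ℓ ^ (k + 1) * ℓ ^ C) := by ring
  have hbadcard : (bad.card : ℝ) ≤ k * (8 * P / ℓ ^ (k + 1)) := by
    have h1 : bad ⊆ (univ : Finset (Fin k)).biUnion
        (fun i => (box Y).filter (fun t => u i + ev (WW X) t (n i) ∈ Bad K b)) := by
      intro t ht
      rw [hbadd, mem_filter] at ht
      obtain ⟨h1, i, h2⟩ := ht
      rw [mem_biUnion]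
      exact ⟨i, mem_univ i, mem_filter.2 ⟨h1, h2⟩⟩
    have h2 : (bad.card : ℝ) ≤ ∑ i : Fin k,
        (((box Y).filter (fun t => u i + ev (WW X) t (n i) ∈ Bad K b)).card : ℝ) := by
      exact_mod_cast (card_le_card h1).trans card_biUnion_le
    refine h2.trans ((sum_le_sum fun i _ => hbad1 i).trans ?_)
    rw [sum_const, card_univ, Fintype.card_fin, nsmul_eq_mul]
  -- pointwise comparison
  have hpt : ∀ t ∈ box Y, |∏ i, ArithmeticFunction.vonMangoldt (u i + ev (WW X) t (n i)).natAbs -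
      ℓ ^ k * (if ∀ i, (u i + ev (WW X) t (n i)).natAbs.Prime then 1 else 0)| ≤
      ε1 * (ℓ ^ k * (if ∀ i, (u i + ev (WW X) t (n i)).natAbs.Prime then 1 else 0)) +
        (if t ∈ bad then 2 * (2 * ℓ) ^ k else 0) := by
    intro t ht
    by_cases hb : t ∈ bad
    · rw [if_pos hb]
      have h1 : 0 ≤ ∏ i, ArithmeticFunction.vonMangoldt (u i + ev (WW X) t (n i)).natAbs :=
        prod_nonneg fun i _ => ArithmeticFunction.vonMangoldt_nonneg
      have h2 : ∏ i, ArithmeticFunction.vonMangoldt (u i + ev (WW X) t (n i)).natAbs ≤ (2 * ℓ) ^ k := by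
        have : (2 * ℓ) ^ k = ∏ _i : Fin k, (2 * ℓ) := by
          rw [prod_const, card_univ, Fintype.card_fin]
        rw [this]
        refine prod_le_prod (fun i _ => ArithmeticFunction.vonMangoldt_nonneg) fun i _ => ?_
        rcases Nat.eq_zero_or_pos (u i + ev (WW X) t (n i)).natAbs with h0 | h0
        · rw [h0, ArithmeticFunction.map_zero]
          positivity
        · refine ArithmeticFunction.vonMangoldt_le_log.trans ((Real.log_le_log
            (by exact_mod_cast h0) ?_).trans hlK)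
          exact_mod_cast hvalK t ht i
      have h3 : ℓ ^ k ≤ (2 * ℓ) ^ k := pow_le_pow_left₀ hℓ0.le (by linarith) k
      have h4 : 0 ≤ ℓ ^ k := by positivity
      have h5 : 0 ≤ ε1 * ℓ ^ k := by positivity
      rw [abs_le]
      split_ifs <;> constructor <;> linarith
    · rw [if_neg hb, add_zero]
      have hg : ∀ i, ¬ ((u i + ev (WW X) t (n i)).natAbs ≤ b ∨
          (IsPrimePow (u i + ev (WW X) t (n i)).natAbs ∧ ¬ (u i + ev (WW X) t (n i)).natAbs.Prime)) := by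
        intro i hi
        apply hb
        rw [hbadd, mem_filter]
        refine ⟨ht, i, ?_⟩
        unfold Bad
        rw [mem_filter, mem_Icc]
        have := hvalK t ht i
        exact ⟨by omega, hi⟩
      apply prod_good _ hg ℓ η ε1 hℓ0.le (by linarith) hηu hηl
      · intro i
        have h1 : b + 1 ≤ (u i + ev (WW X) t (n i)).natAbs := by
          have := hg i
          push Not at this
          omega
        have h2 : (XN : ℝ) / ℓ ^ D ≤ (u i + ev (WW X) t (n i)).natAbs := by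
          have h3 := (Nat.lt_floor_add_one ((XN : ℝ) / ℓ ^ D)).le
          rw [← hbd] at h3
          refine h3.trans ?_
          exact_mod_cast h1
        have h4 := Real.log_le_log (by positivity) h2
        rw [Real.log_div hXN0.ne' (by positivity), Real.log_pow] at h4
        have h5 : 0 ≤ Real.log ℓ := Real.log_nonneg hℓ1
        have h6 : (0 : ℝ) ≤ C1 := Nat.cast_nonneg _
        have h7 : 0 ≤ (C1 : ℝ) * Real.log ℓ := mul_nonneg h6 h5
        rw [← hℓd] at h4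
        have h8 : (1 - η) * ℓ = ℓ - η * ℓ := by ring
        rw [add_mul] at hll
        rw [h8]
        linarith
      · intro i
        rcases Nat.eq_zero_or_pos (u i + ev (WW X) t (n i)).natAbs with h0 | h0
        · rw [h0, Nat.cast_zero, Real.log_zero]
          positivity
        · have h4 := Real.log_le_log (by exact_mod_cast h0) (hvalN t ht i)
          rw [Real.log_mul hXN0.ne' (by positivity), Real.log_pow] at h4
          have h5 : 0 ≤ Real.log ℓ := Real.log_nonneg hℓ1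
          have h6 : (0 : ℝ) ≤ D := Nat.cast_nonneg _
          have h7 : 0 ≤ (D : ℝ) * Real.log ℓ := mul_nonneg h6 h5
          rw [← hℓd] at h4
          have h8 : (1 + η) * ℓ = ℓ + η * ℓ := by ring
          rw [add_mul] at hll
          rw [h8]
          linarith
  -- summation
  set N : ℝ := (((box Y).filter (fun t => ∀ i, (u i + ev (WW X) t (n i)).natAbs.Prime)).card : ℝ) with hNd
  have hNsum : ∑ t ∈ box Y, (if ∀ i, (u i + ev (WW X) t (n i)).natAbs.Prime then (1 : ℝ) else 0) = N := by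
    rw [hNd, card_filter]
    push_cast
    rfl
  have hN0 : 0 ≤ N := Nat.cast_nonneg _
  set A : ℝ := ∑ t ∈ box Y, ∏ i, ArithmeticFunction.vonMangoldt (u i + ev (WW X) t (n i)).natAbs with hA
  have hAx : |A - ℓ ^ k * N| ≤ ε1 * (ℓ ^ k * N) + ε1 * P := by
    have h1 : A - ℓ ^ k * N = ∑ t ∈ box Y, (∏ i, ArithmeticFunction.vonMangoldt (u i + ev (WW X) t (n i)).natAbs -
      ℓ ^ k * (if ∀ i, (u i + ev (WW X) t (n i)).natAbs.Prime then 1 else 0)) := by
      rw [sum_sub_distrib, ← mul_sum, hNsum]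
    rw [h1]
    refine (abs_sum_le_sum_abs _ _).trans ((sum_le_sum hpt).trans ?_)
    rw [sum_add_distrib, ← mul_sum, ← mul_sum, hNsum]
    have h2 : ∑ t ∈ box Y, (if t ∈ bad then 2 * (2 * ℓ) ^ k else 0) = bad.card * (2 * (2 * ℓ) ^ k) := by
      rw [← sum_filter, sum_const, nsmul_eq_mul]
      congr 2
      congr 1
      ext t
      rw [mem_filter]
      exact ⟨fun h => h.2, fun h => ⟨(mem_filter.1 h).1, h⟩⟩
    rw [h2]
    have h3 : (bad.card : ℝ) * (2 * (2 * ℓ) ^ k) ≤ ε1 * P := by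
      refine (mul_le_mul_of_nonneg_right hbadcard (by positivity)).trans ?_
      have h4 : (k : ℝ) * (8 * P / ℓ ^ (k + 1)) * (2 * (2 * ℓ) ^ k) = (16 * k * 2 ^ k / ℓ) * P := by
        rw [mul_pow, pow_succ]
        field_simp
        ring
      rw [h4]
      apply mul_le_mul_of_nonneg_right _ hP0
      rw [div_le_iff₀ hℓ0]
      rw [div_le_iff₀ hε1] at hLk
      nlinarith
    linarith
  have hAV : |A - P * V ^ k| ≤ 2 * ε1 * (P * V ^ k) := by
    rw [sum_sub_distrib, pow_one] at hDIFF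
    have h1 : P / L ≤ ε1 * P := by
      rw [div_le_iff₀ hL0]
      rw [div_le_iff₀ hε1] at hLe
      nlinarith
    have h2 : ε1 * P ≤ ε1 * (P * V ^ k) := mul_le_mul_of_nonneg_left hPV hε1.le
    have h3 := abs_le.1 hDIFF
    have h4 := abs_le.1 hMODEL
    rw [abs_le]
    constructor <;> linarith
  have hfin := finish (ℓ ^ k * N) A (P * V ^ k) P ε1 hε1 hε18 (by positivity) hPV (by positivity) hAx hAV
  have hLk0 : 0 < ℓ ^ k := by positivity
  have hrho : rho2 X d m ^ k = V ^ k / ℓ ^ k := by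
    unfold rho2
    rw [div_pow, hlg]
  rw [hrho]
  have e1 : N - P * (V ^ k / ℓ ^ k) = (ℓ ^ k * N - P * V ^ k) / ℓ ^ k := by
    field_simp
  rw [e1, abs_div, abs_of_pos hLk0, div_le_iff₀ hLk0]
  have e2 : ε * (P * (V ^ k / ℓ ^ k)) * ℓ ^ k = ε * (P * V ^ k) := by
    field_simp
  rw [e2]
  refine hfin.trans ?_
  apply mul_le_mul_of_nonneg_right hε5 (by positivity)

theorem t_PRIMES2 (hD : S_DIFF2) (hDist : S_DIST) : S_PRIMES2 :=
  t_PRIMES2' Pool.Agent.Run7.h215.PO.t_WSMALL hD t_MODEL2 hDist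

end Pool.Agent.Run7.h13.PQ
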